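import Pool.Agent.R626.QM.Stmt

/-! For every countable quasiminimal recursive subshift over a finite alphabet, the model-checking
problem for locally testable languages (given by finite automata) is decidable. -/

namespace Pool.Agent.Results.MP_752584_lc.LTDecidable

open Pool.Agent.R626.QM

theorem result : ∀ (m : ℕ) (X : Set (ℤ → Fin m)), Subshift X → X.Countable → Quasiminimal X →
    (ComputablePred fun w : List (Fin m) => w ∈ Lang X) →
    ∃ f : Aut m →. Bool, Partrec f ∧
      (∀ A, ∀ b ∈ f A, (b = true ↔ ∃ w ∈ autLang A, w ∈ Lang X)) ∧
      ∀ A, LocallyTestable (autLang A) → (f A).Dom := by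
  intro m X hX hc hq hr
  exact main hX hc hq hr

end Pool.Agent.Results.MP_752584_lc.LTDecidable
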